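import Pool.Agent.TurSp.Form

/-! Clique functionals of a graph with integer vertex weights, and two-vertex moves. -/

set_option linter.unusedSectionVars false

namespace Pool.Agent.KzFace
open Finset Pool.Agent.TurSp

variable {V : Type} [Fintype V] [DecidableEq V]

open Classical in
/-- `∑ c e * (number of e-cliques)` in the blow-up of `G` with part sizes `w` -/
noncomputable def phi (G : SimpleGraph V) (c : ℕ → ℝ) (w : V → ℕ) : ℝ :=
  form (fun T => if G.IsClique (T : Set V) then c T.card else 0) (fun x => (w x : ℝ))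

/-- put the weights `s`, `t` on `u`, `v` -/
def put (w : V → ℕ) (u v : V) (s t : ℕ) : V → ℕ :=
  Function.update (Function.update w u s) v t

/-- move the whole weight of `v` to `u` -/
def mv (w : V → ℕ) (u v : V) : V → ℕ := put w u v (w u + w v) 0

/-- the vertices of positive weight -/
def supp (w : V → ℕ) : Finset V := univ.filter fun x => 0 < w x

lemma mem_supp {w : V → ℕ} {x : V} : x ∈ supp w ↔ 0 < w x := by simp [supp]

lemma put_u (w : V → ℕ) {u v : V} (h : u ≠ v) (s t : ℕ) : put w u v s t u = s := by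
  simp [put, Function.update_of_ne h]

lemma put_v (w : V → ℕ) (u v : V) (s t : ℕ) : put w u v s t v = t := by simp [put]

lemma put_ne (w : V → ℕ) {u v x : V} (hu : x ≠ u) (hv : x ≠ v) (s t : ℕ) :
    put w u v s t x = w x := by
  simp [put, Function.update_of_ne hu, Function.update_of_ne hv]

lemma put_self (w : V → ℕ) (u v : V) : put w u v (w u) (w v) = w := by simp [put]

lemma put_comm (w : V → ℕ) {u v : V} (h : u ≠ v) (s t : ℕ) : put w u v s t = put w v u t s := by
  unfold put; rw [Function.update_comm h]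

lemma cast_put (w : V → ℕ) {u v : V} (h : u ≠ v) (s t : ℕ) :
    (fun x => (put w u v s t x : ℝ)) = set2 (fun x => (w x : ℝ)) u v s t := by
  funext x
  by_cases h1 : x = v
  · rw [h1, put_v, set2_v]
  by_cases h2 : x = u
  · rw [h2, put_u w h, set2_u _ h]
  rw [put_ne w h2 h1, set2_ne _ h2 h1]

lemma sum_put (w : V → ℕ) {u v : V} (h : u ≠ v) (s t : ℕ) (f : V → ℕ → ℕ) :
    ∑ x, f x (put w u v s t x) + (f u (w u) + f v (w v)) = ∑ x, f x (w x) + (f u s + f v t) := by
  have key : ∀ g : V → ℕ, ∑ x, g x = g u + g v + ∑ x ∈ (univ.erase u).erase v, g x := by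
    intro g
    conv_lhs => rw [univ_eq_insert u v]
    rw [sum_insert (by simp [h]), sum_insert (by simp)]
    ring
  rw [key, key fun x => f x (w x), put_u w h, put_v]
  have : ∑ x ∈ (univ.erase u).erase v, f x (put w u v s t x)
      = ∑ x ∈ (univ.erase u).erase v, f x (w x) := by
    refine sum_congr rfl fun x hx => ?_
    simp only [mem_erase] at hx
    rw [put_ne w hx.2.1 hx.1]
  rw [this]; ring

lemma sum_put' (w : V → ℕ) {u v : V} (h : u ≠ v) {s t : ℕ} (hst : s + t = w u + w v) :
    ∑ x, put w u v s t x = ∑ x, w x := by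
  have := sum_put w h s t fun _ a => a
  omega

lemma sum_mv (w : V → ℕ) {u v : V} (h : u ≠ v) : ∑ x, mv w u v x = ∑ x, w x :=
  sum_put' w h (by simp)

lemma mv_u (w : V → ℕ) {u v : V} (h : u ≠ v) : mv w u v u = w u + w v := put_u w h _ _

lemma mv_v (w : V → ℕ) (u v : V) : mv w u v v = 0 := put_v w u v _ _

lemma mv_ne (w : V → ℕ) {u v x : V} (hu : x ≠ u) (hv : x ≠ v) : mv w u v x = w x :=
  put_ne w hu hv _ _

lemma supp_mv (w : V → ℕ) {u v : V} (h : u ≠ v) (hu : 0 < w u) :
    supp (mv w u v) = (supp w).erase v := by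
  ext x
  rw [mem_erase, mem_supp, mem_supp]
  by_cases h1 : x = v
  · rw [h1, mv_v]; simp
  by_cases h2 : x = u
  · rw [h2, mv_u w h]; constructor
    · intro _; exact ⟨h, hu⟩
    · intro _; omega
  rw [mv_ne w h2 h1]; simp [h1]

lemma card_supp_mv (w : V → ℕ) {u v : V} (h : u ≠ v) (hu : 0 < w u) (hv : 0 < w v) :
    #(supp (mv w u v)) + 1 = #(supp w) := by
  rw [supp_mv w h hu, card_erase_add_one (mem_supp.2 hv)]

lemma supp_put (w : V → ℕ) {u v : V} (h : u ≠ v) {s t : ℕ} (hu : 0 < w u) (hv : 0 < w v)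
    (hs : 0 < s) (ht : 0 < t) : supp (put w u v s t) = supp w := by
  ext x
  rw [mem_supp, mem_supp]
  by_cases h1 : x = v
  · rw [h1, put_v]; simp [hv, ht]
  by_cases h2 : x = u
  · rw [h2, put_u w h]; simp [hu, hs]
  rw [put_ne w h2 h1]

lemma phi_put (G : SimpleGraph V) (c : ℕ → ℝ) (w : V → ℕ) {u v : V} (h : u ≠ v) :
    ∃ A B B' C : ℝ, (∀ s t : ℕ, phi G c (put w u v s t) = A + s * B + t * B' + s * t * C) ∧
      (¬ G.Adj u v → C = 0) ∧ ((∀ x, x ≠ u → x ≠ v → (G.Adj u x ↔ G.Adj v x)) → B = B') := by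
  classical
  refine ⟨_, _, _, _, fun s t => by unfold phi; rw [cast_put w h, form_set2 _ _ h], ?_, ?_⟩
  · intro hn
    refine sum_eq_zero fun T _ => ?_
    have : ¬ G.IsClique ((insert u (insert v T) : Finset V) : Set V) := fun hc =>
      hn (hc (by simp) (by simp) h)
    simp only [if_neg this, zero_mul]
  · intro htw
    refine sum_congr rfl fun T hT => ?_
    have h1 : u ∉ T := fun hx => by simpa using mem_powerset.1 hT hx
    have h2 : v ∉ T := fun hx => by simpa using mem_powerset.1 hT hx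
    have : G.IsClique ((insert u T : Finset V) : Set V) ↔
        G.IsClique ((insert v T : Finset V) : Set V) := by
      rw [coe_insert, coe_insert, SimpleGraph.isClique_insert, SimpleGraph.isClique_insert]
      refine and_congr_right fun _ => forall_congr' fun x => forall_congr' fun hx => ?_
      have hxu : x ≠ u := fun e => h1 (e ▸ hx)
      have hxv : x ≠ v := fun e => h2 (e ▸ hx)
      rw [htw x hxu hxv]
      simp [hxu.symm, hxv.symm]
    simp only [this, card_insert_of_notMem h1, card_insert_of_notMem h2]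

/-- Zykov's move along a non-edge -/
lemma phi_mix (G : SimpleGraph V) (c : ℕ → ℝ) (w : V → ℕ) {u v : V} (h : u ≠ v)
    (hn : ¬ G.Adj u v) :
    ((w u : ℝ) + w v) * phi G c w = w u * phi G c (mv w u v) + w v * phi G c (mv w v u) := by
  obtain ⟨A, B, B', C, hp, hC, -⟩ := phi_put G c w h
  have h0 := hp (w u) (w v)
  rw [put_self] at h0
  unfold mv
  rw [put_comm w h.symm, h0, hp, hp, hC hn]
  push_cast; ring

/-- a move between twins changes nothing -/
lemma phi_twin (G : SimpleGraph V) (c : ℕ → ℝ) (w : V → ℕ) {u v : V} (h : u ≠ v)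
    (hn : ¬ G.Adj u v) (htw : ∀ x, x ≠ u → x ≠ v → (G.Adj u x ↔ G.Adj v x)) :
    phi G c (mv w u v) = phi G c w := by
  obtain ⟨A, B, B', C, hp, hC, hB⟩ := phi_put G c w h
  have h0 := hp (w u) (w v)
  rw [put_self] at h0
  unfold mv
  rw [h0, hp, hC hn, hB htw]
  push_cast; ring

/-- a move between two parts of a complete multipartite graph -/
lemma top_mix (c : ℕ → ℝ) (w : V → ℕ) {u v : V} (h : u ≠ v) {s t : ℕ} (hst : s + t = w u + w v) :
    (s : ℝ) * t * phi ⊤ c w = (w u : ℝ) * w v * phi ⊤ c (put w u v s t)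
      + ((s : ℝ) * t - (w u : ℝ) * w v) * phi ⊤ c (mv w u v) := by
  obtain ⟨A, B, B', C, hp, -, hB⟩ := phi_put ⊤ c w h
  have h0 := hp (w u) (w v)
  rw [put_self] at h0
  have hB' : B = B' := hB fun x h1 h2 => by simp [h1.symm, h2.symm]
  have hs : (s : ℝ) = w u + w v - t := by
    have : (s : ℝ) + t = w u + w v := by exact_mod_cast hst
    linarith
  unfold mv
  rw [h0, hp, hp, hB', hs]
  push_cast; ring

lemma prod_zero {w : V → ℕ} {T : Finset V} (h : ¬ T ⊆ supp w) : ∏ x ∈ T, (w x : ℝ) = 0 := by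
  rw [not_subset] at h
  obtain ⟨x, hx, hx'⟩ := h
  rw [mem_supp] at hx'
  exact prod_eq_zero hx (by have : w x = 0 := by omega
                            simp [this])

lemma phi_eq_top {G : SimpleGraph V} (c : ℕ → ℝ) {w : V → ℕ}
    (h : G.IsClique (supp w : Set V)) : phi G c w = phi ⊤ c w := by
  classical
  unfold phi form
  refine sum_congr rfl fun T _ => ?_
  by_cases hT : T ⊆ supp w
  · have h1 : G.IsClique (T : Set V) := h.subset (coe_subset.2 hT)
    have h2 : (⊤ : SimpleGraph V).IsClique (T : Set V) := h1.mono le_top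
    simp only [if_pos h1, if_pos h2]
  · rw [prod_zero hT, mul_zero, mul_zero]

/-- if the functional vanishes and a `k`-clique is present, then a larger clique is present -/
lemma bigger {G : SimpleGraph V} {c : ℕ → ℝ} {k : ℕ} (hc0 : ∀ e, e < k → c e = 0) (hck : 0 < c k)
    {w : V → ℕ} (h0 : phi G c w = 0) {T : Finset V} (hT : G.IsClique (T : Set V))
    (hTs : T ⊆ supp w) (hk : k ≤ #T) :
    ∃ T' : Finset V, G.IsClique (T' : Set V) ∧ T' ⊆ supp w ∧ k + 1 ≤ #T' := by
  classical
  by_contra hno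
  push Not at hno
  obtain ⟨T₀, hT₀, hc₀⟩ := exists_subset_card_eq hk
  have hcl : G.IsClique (T₀ : Set V) := hT.subset (coe_subset.2 hT₀)
  refine absurd h0 (ne_of_gt ?_)
  unfold phi form
  refine sum_pos' (fun S _ => ?_) ⟨T₀, mem_univ _, ?_⟩
  · by_cases hS : S ⊆ supp w
    · refine mul_nonneg ?_ (prod_nonneg fun x _ => by positivity)
      by_cases h1 : G.IsClique (S : Set V)
      · simp only [if_pos h1]
        have := hno S h1 hS
        rcases Nat.lt_or_ge (#S) k with h2 | h2
        · rw [hc0 _ h2]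
        · rw [show #S = k by omega]; exact hck.le
      · simp only [if_neg h1, le_refl]
    · rw [prod_zero hS, mul_zero]
  · simp only [if_pos hcl, hc₀]
    refine mul_pos hck (prod_pos fun x hx => ?_)
    exact_mod_cast mem_supp.1 (hTs (hT₀ hx))

lemma exists_nonedge {G : SimpleGraph V} {w : V → ℕ} (h : ¬ G.IsClique (supp w : Set V)) :
    ∃ u v, u ≠ v ∧ ¬ G.Adj u v ∧ 0 < w u ∧ 0 < w v := by
  by_contra hno
  push Not at hno
  refine h fun u hu v hv huv => ?_
  by_contra hn
  have := hno u v huv hn (mem_supp.1 (mem_coe.1 hu))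
  have := mem_supp.1 (mem_coe.1 hv)
  omega

/-- an invariant of the moves that gives a bound on cliques gives it everywhere -/
lemma descend (G : SimpleGraph V) (c : ℕ → ℝ) (P : (V → ℕ) → Prop) (Q : ℝ → Prop)
    (hQ : ∀ a b x y z : ℝ, 0 < a → 0 < b → (a + b) * z = a * x + b * y → Q x → Q y → Q z)
    (hP : ∀ w u v, u ≠ v → ¬ G.Adj u v → P w → P (mv w u v))
    (hb : ∀ w, P w → G.IsClique (supp w : Set V) → Q (phi ⊤ c w)) :
    ∀ w, P w → Q (phi G c w) := by
  intro w
  induction hm : #(supp w) using Nat.strong_induction_on generalizing w with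
  | _ m ih =>
    intro hw
    by_cases hc : G.IsClique (supp w : Set V)
    · rw [phi_eq_top c hc]; exact hb w hw hc
    obtain ⟨u, v, h, hn, hu, hv⟩ := exists_nonedge hc
    have e1 := card_supp_mv w h hu hv
    have e2 := card_supp_mv w h.symm hv hu
    refine hQ (w u) (w v) _ _ _ (by exact_mod_cast hu) (by exact_mod_cast hv)
      (phi_mix G c w h hn) (ih _ (by omega) _ rfl (hP w u v h hn hw))
      (ih _ (by omega) _ rfl (hP w v u h.symm (fun a => hn a.symm) hw))

end Pool.Agent.KzFace
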