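import Mathlib

/-! The two sporadic families of graphs on proper faces of the simplex of Turán graphs. -/

namespace Pool.Agent.KzFace
open Finset

/-- The vertices are split into blocks (the fibres of `f`).  The block with label `d` has `q + 1`
vertices and spans no triangle; there is at least one more block, and each of the other blocks is
an independent set of `q` vertices; vertices in different blocks are adjacent; `q` is 2 or 3. -/
def Sporadic {V : Type} [Fintype V] [DecidableEq V] (G : SimpleGraph V) : Prop :=
  ∃ (q : ℕ) (f : V → V) (d : V), (q = 2 ∨ q = 3) ∧ (∃ x, f x ≠ d) ∧ #{x | f x = d} = q + 1 ∧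
    (∀ x, f x ≠ d → #{y | f y = f x} = q) ∧ (∀ x y, f x ≠ f y → G.Adj x y) ∧
    (∀ x y, f x = f y → f x ≠ d → ¬ G.Adj x y) ∧
    ∀ x y z, f x = d → f y = d → f z = d → ¬ (G.Adj x y ∧ G.Adj x z ∧ G.Adj y z)

end Pool.Agent.KzFace
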