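import Pool.Agent.MP_913d4e_co.kz.Flow
import Pool.Agent.MP_913d4e_co.kz.Defs

/-! Classification of the graphs all of whose symmetrisations have one of the two shapes. -/

set_option linter.unusedSectionVars false

namespace Pool.Agent.KzFace
open Finset

variable {V : Type} [Fintype V] [DecidableEq V]

lemma Al.two {w : V → ℕ} (h : Al w) : 2 ≤ #(supp w) := by
  rcases h with h | h
  · exact h.1
  · have := h.1; omega

lemma block {G : SimpleGraph V} {S : (V → ℕ) → Prop}
    (hS : ∀ w u v, u ≠ v → ¬ G.Adj u v → 0 < w u → S w → S (mv w u v)) (h1 : S fun _ => 1)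
    (hAl : ∀ w, S w → G.IsClique (supp w : Set V) → Al w) {r p : V → V} {ρ : V → ℕ}
    (hf : ∀ x, r x = x ∨ (¬ G.Adj (p x) x ∧ ρ (p x) < ρ x ∧ r (p x) = r x))
    (hadj : ∀ x y, r x ≠ r y → G.Adj x y) (hrr : ∀ x, r (r x) = r x) (h0 : Al (sz r))
    {d a c : V} (ha : r a = d) (hc : r c = d) (hac : G.Adj a c) :
    ∃ q, (q = 2 ∨ q = 3) ∧ sz r d = q + 1 ∧ (∀ z, z ≠ d → 0 < sz r z → sz r z = q) ∧
      ∀ x y z, r x = d → r y = d → r z = d → ¬ (G.Adj x y ∧ G.Adj x z ∧ G.Adj y z) := by
  have hd : r d = d := by rw [← ha, hrr]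
  have hroot : ∀ z, 0 < sz r z → r z = z := fun z hz => by
    obtain ⟨x, rfl⟩ := sz_pos.1 hz
    exact hrr x
  have hnon : ∃ t t', r t = d ∧ r t' = d ∧ t' ≠ t ∧ ¬ G.Adj t' t ∧ (t = a ∨ t = c) := by
    have : ∃ t, r t = d ∧ r t ≠ t ∧ (t = a ∨ t = c) := by
      by_cases e : a = d
      · exact ⟨c, hc, by rw [hc, ← e]; exact hac.ne, Or.inr rfl⟩
      · exact ⟨a, ha, by rw [ha]; exact fun h => e h.symm, Or.inl rfl⟩
    obtain ⟨t, h1, h2, h3⟩ := this
    obtain ⟨e1, e2, e3⟩ := (hf t).resolve_left h2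
    exact ⟨t, p t, h1, by rw [e3, h1], fun e => by rw [e] at e2; omega, e1, h3⟩
  obtain ⟨t, t', ht, ht', htt, hnt, htac⟩ := hnon
  have h3 : 3 ≤ sz r d := by
    have hta : t' ≠ a := by
      rintro rfl
      rcases htac with e | e
      · exact htt e.symm
      · exact hnt (e ▸ hac)
    have htc : t' ≠ c := by
      rintro rfl
      rcases htac with e | e
      · exact hnt (e ▸ hac.symm)
      · exact htt e.symm
    have : ({t', a, c} : Finset V) ⊆ univ.filter fun x => r x = d := by
      intro x hx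
      simp only [mem_insert, mem_singleton] at hx
      rcases hx with e | e | e <;> simp [e, ht', ha, hc]
    have h2 := card_le_card this
    rwa [card_insert_of_notMem (by simp [hta, htc]), card_pair hac.ne] at h2
  obtain ⟨w, hw, hwc, hwp, hws, hwz⟩ := split_block hS h1 hf hadj hrr hd (T := {a, c})
    (by rw [coe_pair]; exact SimpleGraph.isClique_pair.2 fun _ => hac)
    (fun x hx => by rcases mem_insert.1 hx with e | e <;> simp_all)
  rw [sum_pair hac.ne] at hws
  have pa := hwp a (by simp)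
  have pc := hwp c (by simp)
  have hw' : ∀ z, z ≠ d → 0 < sz r z → w z = sz r z := fun z hz hp =>
    hwz z (by rw [hroot z hp]; exact hz)
  have hexc : ∀ z₁, w z₁ = 1 → (∀ x, x ≠ z₁ → w x = 0 ∨ w x = 3) → 4 ≤ w a + w c := by
    intro z₁ _ h
    by_cases e : a = z₁
    · have := h c (by rw [← e]; exact hac.ne.symm); omega
    · have := h a e; omega
  have main : ∀ z, z ≠ d → 0 < sz r z → sz r z + 1 = sz r d ∧ sz r d ≤ 4 := by
    intro z hz hp
    have e := hw' z hz hp
    rcases h0 with ⟨-, hb⟩ | ⟨hs, z₀, hz₀, hb⟩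
    · have b1 := hb d z hp
      rcases hAl w hw hwc with ⟨-, hb'⟩ | ⟨-, z₁, hz₁, hb'⟩
      · have := hb' z a pa
        have := hb' z c pc
        omega
      · have := hexc z₁ hz₁ hb'
        by_cases e1 : z = z₁
        · rw [← e1] at hz₁; omega
        · have := hb' z e1; omega
    · exfalso
      have hd0 : d ≠ z₀ := fun e => by rw [e] at h3; omega
      have hD : sz r d = 3 := by have := hb d hd0; omega
      obtain ⟨z₂, hz₂, hz₂'⟩ : ∃ z₂ ∈ supp (sz r), z₂ ∉ ({d, z₀} : Finset V) := by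
        by_contra hno
        push Not at hno
        have := card_le_card (show supp (sz r) ⊆ {d, z₀} from hno)
        rw [card_pair hd0] at this
        omega
      simp only [mem_insert, mem_singleton, not_or] at hz₂'
      rw [mem_supp] at hz₂
      have e2 := hw' z₂ hz₂'.1 hz₂
      have e3 := hb z₂ hz₂'.2
      rcases hAl w hw hwc with ⟨-, hb'⟩ | ⟨-, z₁, hz₁, hb'⟩
      · have := hb' z₂ a pa
        have := hb' z₂ c pc
        omega
      · have := hexc z₁ hz₁ hb'
        omega
  obtain ⟨z₀, hz₀, hz₀d⟩ := exists_mem_ne (h0.two : 1 < #(supp (sz r))) d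
  rw [mem_supp] at hz₀
  obtain ⟨m1, m2⟩ := main z₀ hz₀d hz₀
  refine ⟨sz r d - 1, by omega, by omega, fun z hz hp => by have := main z hz hp; omega, ?_⟩
  rintro x y z hx hy hz ⟨hxy, hxz, hyz⟩
  have hcl : G.IsClique (({x, y, z} : Finset V) : Set V) :=
    (SimpleGraph.is3Clique_triple_iff.2 ⟨hxy, hxz, hyz⟩).isClique
  have hsub : ∀ u ∈ ({x, y, z} : Finset V), r u = d := by
    intro u hu
    simp only [mem_insert, mem_singleton] at hu
    rcases hu with e | e | e <;> simp [e, hx, hy, hz]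
  by_cases hD : sz r d = 3
  · have : ({x, y, z} : Finset V) = univ.filter fun u => r u = d :=
      eq_of_subset_of_card_le (fun u hu => mem_filter.2 ⟨mem_univ _, hsub u hu⟩) (by
        rw [(SimpleGraph.is3Clique_triple_iff.2 ⟨hxy, hxz, hyz⟩).card_eq]; exact hD.le)
    refine hnt (hcl ?_ ?_ htt) <;> rw [this] <;> simp [ht, ht']
  obtain ⟨v, hv, hvc, hvp, hvs, hvz⟩ := split_block hS h1 hf hadj hrr hd hcl hsub
  rw [sum_insert (by simp [hxy.ne, hxz.ne]), sum_pair hyz.ne] at hvs
  have px := hvp x (by simp)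
  have py := hvp y (by simp)
  have pz := hvp z (by simp)
  have e := hvz z₀ (by rw [hroot z₀ hz₀]; exact hz₀d)
  rcases hAl v hv hvc with ⟨-, hb'⟩ | ⟨-, z₁, hz₁, hb'⟩
  · have := hb' z₀ x px
    have := hb' z₀ y py
    have := hb' z₀ z pz
    omega
  · by_cases e1 : x = z₁
    · have := hb' y (by rw [← e1]; exact hxy.ne.symm); omega
    · have := hb' x e1; omega

theorem classify {G : SimpleGraph V} {S : (V → ℕ) → Prop}
    (hS : ∀ w u v, u ≠ v → ¬ G.Adj u v → 0 < w u → S w → S (mv w u v)) (h1 : S fun _ => 1)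
    (hAl : ∀ w, S w → G.IsClique (supp w : Set V) → Al w) :
    (∃ r : V → V, (∀ x y, G.Adj x y ↔ r x ≠ r y) ∧ 2 ≤ #(supp (sz r)) ∧ Bal (sz r)) ∨
      Sporadic G := by
  obtain ⟨r, p, ρ, hf, hadj, hrr⟩ := comp_forest G
  have h0 : Al (sz r) := by
    refine hAl _ (flow (fun u v => ¬ G.Adj u v) S hS r p ρ hf h1) fun y hy y' hy' hne => ?_
    obtain ⟨x, rfl⟩ := sz_pos.1 (mem_supp.1 (mem_coe.1 hy))
    obtain ⟨x', rfl⟩ := sz_pos.1 (mem_supp.1 (mem_coe.1 hy'))
    exact hadj _ _ (by rw [hrr, hrr]; exact hne)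
  have hpos : ∀ x, 0 < sz r (r x) := fun x => sz_pos.2 ⟨x, rfl⟩
  by_cases hcm : ∀ x y, r x = r y → ¬ G.Adj x y
  swap
  · push Not at hcm
    obtain ⟨a, c, hac, h⟩ := hcm
    obtain ⟨q, hq, e1, e2, e3⟩ := block hS h1 hAl hf hadj hrr h0 rfl hac.symm h
    obtain ⟨z₀, hz₀, hz₀d⟩ := exists_mem_ne (h0.two : 1 < #(supp (sz r))) (r a)
    obtain ⟨x₀, hx₀⟩ := sz_pos.1 (mem_supp.1 hz₀)
    refine Or.inr ⟨q, r, r a, hq, ⟨x₀, by rw [hx₀]; exact hz₀d⟩, e1,
      fun x hx => e2 _ hx (hpos x), hadj, fun x y hxy hx hA => ?_, e3⟩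
    obtain ⟨q', -, f1, f2, -⟩ := block hS h1 hAl hf hadj hrr h0 rfl hxy.symm hA
    have := f2 _ hx.symm (hpos a)
    have := e2 _ hx (hpos x)
    omega
  rcases h0 with ⟨h2, hb⟩ | ⟨h3, z, hz, hb⟩
  · exact Or.inl ⟨r, fun x y => ⟨fun h e => hcm x y e h, hadj x y⟩, h2, hb⟩
  obtain ⟨d, hd, hdz⟩ := exists_mem_ne (by omega : 1 < #(supp (sz r))) z
  rw [mem_supp] at hd
  have hd3 : sz r d = 3 := by have := hb d hdz; omega
  obtain ⟨z₂, hz₂, hz₂'⟩ : ∃ z₂ ∈ supp (sz r), z₂ ∉ ({d, z} : Finset V) := by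
    by_contra hno
    push Not at hno
    have := card_le_card (show supp (sz r) ⊆ {d, z} from hno)
    rw [card_pair hdz] at this
    omega
  simp only [mem_insert, mem_singleton, not_or] at hz₂'
  obtain ⟨x₂, hx₂⟩ := sz_pos.1 (mem_supp.1 hz₂)
  let f : V → V := fun x => if r x = z then d else r x
  have f1 : ∀ x, f x = d ↔ r x = d ∨ r x = z := by
    intro x
    simp only [f]
    split_ifs with h
    · simp [h]
    · simp [h]
  have f2 : ∀ x, f x ≠ d → f x = r x ∧ r x ≠ d ∧ r x ≠ z := by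
    intro x hx
    have := (f1 x).not.1 hx
    rw [not_or] at this
    exact ⟨if_neg this.2, this⟩
  have f3 : ∀ x y, r x = r y → f x = f y := fun x y h => by simp only [f, h]
  have f4 : ∀ x y, f x ≠ d → f y = f x → r y = r x := fun x y hx h => by
    rw [← (f2 x hx).1, ← (f2 y (by rw [h]; exact hx)).1, h]
  refine Or.inr ⟨3, f, d, Or.inr rfl, ⟨x₂, fun h => ?_⟩, ?_, fun x hx => ?_,
    fun x y h => hadj x y fun e => h (f3 x y e),
    fun x y h hx => hcm x y (f4 x y hx h.symm).symm, ?_⟩
  · rw [f1, hx₂] at h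
    tauto
  · have : (univ.filter fun x => f x = d)
        = (univ.filter fun x => r x = d) ∪ univ.filter fun x => r x = z := by
      ext x; simp [f1]
    have hdis : Disjoint (univ.filter fun x => r x = d) (univ.filter fun x => r x = z) :=
      disjoint_filter.2 fun x _ h h' => hdz (h.symm.trans h')
    rw [this, card_union_of_disjoint hdis]
    exact congrArg₂ (· + ·) hd3 hz
  · have : (univ.filter fun y => f y = f x) = univ.filter fun y => r y = r x := by
      ext y
      simp only [mem_filter, mem_univ, true_and]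
      exact ⟨f4 x y hx, f3 y x⟩
    rw [this]
    have h4 := hb _ (f2 x hx).2.2
    have h5 := hpos x
    show sz r (r x) = 3
    omega
  · rintro x y u hx hy hu ⟨h1, h2, h3⟩
    rw [f1] at hx hy hu
    have a1 : r x ≠ r y := fun e => hcm x y e h1
    have a2 : r x ≠ r u := fun e => hcm x u e h2
    have a3 : r y ≠ r u := fun e => hcm y u e h3
    rcases hx with hx | hx <;> rcases hy with hy | hy <;> rcases hu with hu | hu <;> simp_all

/-- in a sporadic graph every symmetrisation has one of the two shapes -/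
lemma Sporadic.al {G : SimpleGraph V} (h : Sporadic G) : ∃ f : V → V,
    (∀ x y, f x ≠ f y → G.Adj x y) ∧
    ∀ w, push f w = sz f → G.IsClique (supp w : Set V) → Al w := by
  obtain ⟨q, f, d, hq, ⟨x₀, hx₀⟩, hd, ho, hadj, hind, htri⟩ := h
  refine ⟨f, hadj, fun w hw hc => ?_⟩
  have hA : ∀ x y, 0 < w x → 0 < w y → x ≠ y → G.Adj x y := fun x y hx hy h =>
    hc (mem_coe.2 (mem_supp.2 hx)) (mem_coe.2 (mem_supp.2 hy)) h
  have hsum : ∀ i (B : Finset V), (∀ x ∈ B, f x = i) → (∀ x, f x = i → 0 < w x → x ∈ B) →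
      ∑ x ∈ B, w x = sz f i := by
    intro i B h1 h2
    rw [← hw]
    unfold push
    rw [← sum_filter]
    refine sum_subset (fun x hx => mem_filter.2 ⟨mem_univ _, h1 x hx⟩) fun x hx hx' => ?_
    by_contra hne
    exact hx' (h2 x (mem_filter.1 hx).2 (by omega))
  have hex : ∀ i, 0 < sz f i → ∃ x, f x = i ∧ 0 < w x := by
    intro i hi
    by_contra hno
    push Not at hno
    have := hsum i ∅ (by simp) fun x h1 h2 => by have := hno x h1; omega
    rw [sum_empty] at this
    omega
  have hout : ∀ x, f x ≠ d → w x = 0 ∨ w x = q := by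
    intro x hx
    rcases Nat.eq_zero_or_pos (w x) with h | h
    · exact Or.inl h
    have := hsum (f x) {x} (by simp) fun y h1 h2 => by
      rw [mem_singleton]
      by_contra hne
      exact hind x y h1.symm hx (hA x y h h2 fun e => hne e.symm)
    rw [sum_singleton] at this
    exact Or.inr (this.trans (ho x hx))
  have hd' : sz f d = q + 1 := hd
  obtain ⟨x, hx, px⟩ := hex (f x₀) (sz_pos.2 ⟨x₀, rfl⟩)
  have hxd : f x ≠ d := by rw [hx]; exact hx₀
  obtain ⟨y, hy, py⟩ := hex d (by omega)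
  have hxy : x ≠ y := fun e => hxd (e ▸ hy)
  have two : 2 ≤ #(supp w) := by
    rw [← card_pair hxy]
    exact card_le_card fun u hu => by
      rcases mem_insert.1 hu with e | e
      · rw [e]; exact mem_supp.2 px
      · rw [mem_singleton.1 e]; exact mem_supp.2 py
  by_cases hone : ∀ u, f u = d → 0 < w u → u = y
  · have e := hsum d {y} (by simp [hy]) fun u h1 h2 => mem_singleton.2 (hone u h1 h2)
    rw [sum_singleton] at e
    have val : ∀ u, w u = 0 ∨ w u = q ∨ w u = q + 1 := by
      intro u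
      by_cases h : f u = d
      · rcases Nat.eq_zero_or_pos (w u) with h' | h'
        · exact Or.inl h'
        · rw [hone u h h']; omega
      · have := hout u h; omega
    exact Or.inl ⟨two, fun a b hb => by have := val a; have := val b; omega⟩
  push Not at hone
  obtain ⟨y', hy', py', hyy⟩ := hone
  have htwo : ∀ u, f u = d → 0 < w u → u = y ∨ u = y' := by
    intro u h1 h2
    by_contra hno
    rw [not_or] at hno
    exact htri u y y' h1 hy hy' ⟨hA _ _ h2 py hno.1, hA _ _ h2 py' hno.2, hA _ _ py py' hyy.symm⟩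
  have e := hsum d {y, y'} (by simp [hy, hy']) fun u h1 h2 => by simpa using htwo u h1 h2
  rw [sum_pair hyy.symm] at e
  have val : ∀ u, w u = 0 ∨ w u = q ∨ u = y ∨ u = y' := by
    intro u
    by_cases h : f u = d
    · rcases Nat.eq_zero_or_pos (w u) with h' | h'
      · exact Or.inl h'
      · exact Or.inr (Or.inr (htwo u h h'))
    · have := hout u h; tauto
  have three : 3 ≤ #(supp w) := by
    have hxy' : x ≠ y' := fun e => hxd (e ▸ hy')
    have : #({x, y, y'} : Finset V) = 3 := by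
      rw [card_insert_of_notMem (by simp [hxy, hxy']), card_pair hyy.symm]
    rw [← this]
    exact card_le_card fun u hu => by
      simp only [mem_insert, mem_singleton] at hu
      rcases hu with e | e | e <;> rw [e, mem_supp] <;> assumption
  by_cases c1 : q = 3 ∧ w y = 1
  · refine Or.inr ⟨three, y, c1.2, fun u hu => ?_⟩
    rcases val u with h | h | h | h
    · omega
    · omega
    · exact absurd h hu
    · rw [h]; omega
  by_cases c2 : q = 3 ∧ w y' = 1
  · refine Or.inr ⟨three, y', c2.2, fun u hu => ?_⟩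
    rcases val u with h | h | h | h
    · omega
    · omega
    · rw [h]; omega
    · exact absurd h hu
  have val' : ∀ u, w u = 0 ∨ w u = q ∨ w u + 1 = q := by
    intro u
    rcases val u with h | h | h | h
    · omega
    · omega
    · rw [h]; omega
    · rw [h]; omega
  exact Or.inl ⟨two, fun a b hb => by have := val' a; have := val' b; omega⟩

end Pool.Agent.KzFace
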