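import Pool.Agent.MP_913d4e_co.kz.Sym

/-! Moving all weight along a forest to its roots; components of the complement. -/

set_option linter.unusedSectionVars false

namespace Pool.Agent.KzFace
open Finset

variable {V : Type} [Fintype V] [DecidableEq V]

/-- total weight of a fibre -/
def push (r : V → V) (w : V → ℕ) (y : V) : ℕ := ∑ x, if r x = y then w x else 0

/-- size of a fibre -/
def sz (r : V → V) (y : V) : ℕ := #{x | r x = y}

lemma push_one (r : V → V) : push r (fun _ => 1) = sz r := by
  funext y; simp [push, sz]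

lemma push_mv {r : V → V} (w : V → ℕ) {u v : V} (h : u ≠ v) (hr : r u = r v) :
    push r (mv w u v) = push r w := by
  funext y
  have := sum_put w h (w u + w v) 0 fun x a => if r x = y then a else 0
  unfold push mv
  rw [hr] at this
  split_ifs at this <;> omega

lemma sz_pos {r : V → V} {y : V} : 0 < sz r y ↔ ∃ x, r x = y := by
  simp [sz, card_pos, Finset.Nonempty]

lemma sum_sz (r : V → V) : ∑ y, sz r y = Fintype.card V := by
  unfold sz
  rw [← card_univ, card_eq_sum_card_fiberwise (f := r) (t := univ) (fun _ _ => mem_univ _)]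

lemma flow (R : V → V → Prop) (S : (V → ℕ) → Prop)
    (hS : ∀ w u v, u ≠ v → R u v → 0 < w u → S w → S (mv w u v)) (r p : V → V) (ρ : V → ℕ)
    (hf : ∀ x, r x = x ∨ (R (p x) x ∧ ρ (p x) < ρ x ∧ r (p x) = r x)) (h1 : S fun _ => 1) :
    S (sz r) := by
  have key : ∀ A : Finset V, ∀ w : V → ℕ, (∀ x, r x = x ∨ x ∈ A → 0 < w x) →
      (∀ x, r x ≠ x → x ∉ A → w x = 0) → (∀ x ∈ A, r x ≠ x ∧ (r (p x) = p x ∨ p x ∈ A)) →
      S w → S (push r w) := by
    intro A
    induction A using Finset.induction_on_max_value ρ with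
    | empty =>
      intro w _ h0 _ hw
      have : push r w = w := by
        funext y
        unfold push
        rw [sum_eq_single y]
        · split_ifs with h
          · rfl
          · exact (h0 y h (by simp)).symm
        · intro x _ hx
          split_ifs with h
          · exact h0 x (by rw [h]; exact hx.symm) (by simp)
          · rfl
        · simp
      rw [this]; exact hw
    | insert a A ha hmax ih =>
      intro w hp h0 hA hw
      obtain ⟨ha1, ha2⟩ := hA a (mem_insert_self _ _)
      obtain ⟨hR, hρ, hr⟩ := (hf a).resolve_left ha1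
      have hne : p a ≠ a := fun e => by rw [e] at hρ; omega
      have hpa : 0 < w (p a) := hp _ ha2
      rw [← push_mv w hne hr]
      refine ih _ (fun x hx => ?_) (fun x hx hxA => ?_) (fun x hx => ?_) (hS w _ _ hne hR hpa hw)
      · have hxa : x ≠ a := by
          rintro rfl
          rcases hx with hx | hx
          · exact ha1 hx
          · exact ha hx
        by_cases e : x = p a
        · rw [e, mv_u w hne]; omega
        · rw [mv_ne w e hxa]; exact hp x (hx.imp_right mem_insert_of_mem)
      · by_cases hxa : x = a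
        · rw [hxa, mv_v]
        have hx' : x ∉ insert a A := by simp [hxa, hxA]
        have e : x ≠ p a := by
          rintro rfl
          rcases ha2 with h | h
          · exact hx h
          · exact hx' h
        rw [mv_ne w e hxa]; exact h0 x hx hx'
      · obtain ⟨h1, h2⟩ := hA x (mem_insert_of_mem hx)
        refine ⟨h1, h2.imp_right fun h => (mem_insert.1 h).resolve_left fun e => ?_⟩
        have := ((hf x).resolve_left h1).2.1
        have := hmax x hx
        rw [e] at *
        omega
  rw [← push_one]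
  refine key (univ.filter fun x => r x ≠ x) _ (fun _ _ => Nat.one_pos) (fun x hx h => ?_)
    (fun x hx => ⟨(mem_filter.1 hx).2, ?_⟩) h1
  · exact absurd (by simpa using hx) h
  · by_cases h : r (p x) = p x
    · exact Or.inl h
    · exact Or.inr (mem_filter.2 ⟨mem_univ _, h⟩)

/-- the components of the complement, as a rooted forest -/
lemma comp_forest (G : SimpleGraph V) : ∃ (r p : V → V) (ρ : V → ℕ),
    (∀ x, r x = x ∨ (¬ G.Adj (p x) x ∧ ρ (p x) < ρ x ∧ r (p x) = r x)) ∧
    (∀ x y, r x ≠ r y → G.Adj x y) ∧ ∀ x, r (r x) = r x := by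
  classical
  let r : V → V := fun x => (Gᶜ.connectedComponentMk x).out
  have hr : ∀ x, Gᶜ.connectedComponentMk (r x) = Gᶜ.connectedComponentMk x := fun x =>
    Quot.out_eq _
  have hadj : ∀ x y, Gᶜ.Adj x y → r x = r y := fun x y h => by
    simp only [r]; rw [SimpleGraph.ConnectedComponent.sound h.reachable]
  have hstep : ∀ x, ∃ y, r x = x ∨
      (¬ G.Adj y x ∧ Gᶜ.dist y (r y) < Gᶜ.dist x (r x) ∧ r y = r x) := by
    intro x
    have hre : Gᶜ.Reachable x (r x) := (SimpleGraph.ConnectedComponent.exact (hr x)).symm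
    obtain ⟨q, hq⟩ := hre.exists_walk_length_eq_dist
    generalize hz : r x = z at q hq
    cases q with
    | nil => exact ⟨x, Or.inl rfl⟩
    | @cons _ y _ h q =>
      have e : r y = z := by rw [← hadj x y h, hz]
      refine ⟨y, Or.inr ⟨fun a => ((G.compl_adj x y).1 h).2 a.symm, ?_, e⟩⟩
      have := SimpleGraph.dist_le q
      rw [SimpleGraph.Walk.length_cons] at hq
      rw [e]; omega
  choose p hp using hstep
  refine ⟨r, p, fun x => Gᶜ.dist x (r x), hp, fun x y h => ?_, fun x => ?_⟩
  · by_contra hn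
    exact h (hadj x y ((G.compl_adj x y).2 ⟨fun e => h (by rw [e]), hn⟩))
  · show (Gᶜ.connectedComponentMk (r x)).out = _
    rw [hr]

/-- splitting one block along a clique inside it -/
lemma split_block {G : SimpleGraph V} {S : (V → ℕ) → Prop}
    (hS : ∀ w u v, u ≠ v → ¬ G.Adj u v → 0 < w u → S w → S (mv w u v)) (h1 : S fun _ => 1)
    {r p : V → V} {ρ : V → ℕ}
    (hf : ∀ x, r x = x ∨ (¬ G.Adj (p x) x ∧ ρ (p x) < ρ x ∧ r (p x) = r x))
    (hadj : ∀ x y, r x ≠ r y → G.Adj x y) (hrr : ∀ x, r (r x) = r x) {d : V} (hd : r d = d)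
    {T : Finset V} (hT : G.IsClique (T : Set V)) (hTd : ∀ x ∈ T, r x = d) :
    ∃ w, S w ∧ G.IsClique (supp w : Set V) ∧ (∀ x ∈ T, 0 < w x) ∧ ∑ x ∈ T, w x ≤ sz r d ∧
      ∀ z, r z ≠ d → w z = sz r z := by
  classical
  obtain ⟨I, hI, hmax⟩ := exists_max_image
    (univ.filter fun I : Finset V => G.IsClique (I : Set V) ∧ T ⊆ I ∧ ∀ x ∈ I, r x = d) card
    ⟨T, mem_filter.2 ⟨mem_univ _, hT, subset_rfl, hTd⟩⟩
  obtain ⟨-, hIc, hTI, hId⟩ := mem_filter.1 hI
  have hg : ∀ x, ∃ y, r x = d → y ∈ I ∧ (x ∈ I → y = x) ∧ ¬ G.Adj y x := by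
    intro x
    by_cases hx : x ∈ I
    · exact ⟨x, fun _ => ⟨hx, fun _ => rfl, G.irrefl⟩⟩
    by_cases hxd : r x = d
    swap
    · exact ⟨x, fun h => absurd h hxd⟩
    by_contra hno
    push Not at hno
    have hc : G.IsClique ((insert x I : Finset V) : Set V) := by
      rw [coe_insert, SimpleGraph.isClique_insert]
      exact ⟨hIc, fun y hy _ => ((hno y).2 hy fun h => absurd h hx).symm⟩
    have := hmax (insert x I) (mem_filter.2 ⟨mem_univ _, hc, hTI.trans (subset_insert _ _),
      fun y hy => by
        rcases mem_insert.1 hy with e | e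
        · rw [e, hxd]
        · exact hId y e⟩)
    rw [card_insert_of_notMem hx] at this
    omega
  choose g hg using hg
  let r' : V → V := fun x => if r x = d then g x else r x
  have r1 : ∀ x, r x = d → r' x = g x := fun x h => if_pos h
  have r2 : ∀ x, r x ≠ d → r' x = r x := fun x h => if_neg h
  have r3 : ∀ x ∈ I, r' x = x := fun x hx => by rw [r1 x (hId x hx), (hg x (hId x hx)).2.1 hx]
  have r4 : ∀ x, r (r' x) = r x := by
    intro x
    by_cases h : r x = d
    · rw [r1 x h, hId _ (hg x h).1, h]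
    · rw [r2 x h, hrr]
  refine ⟨sz r', flow (fun u v => ¬ G.Adj u v) S hS r' (fun x => if r x = d then g x else p x)
    (fun x => if r x = d then (if x ∈ I then 0 else 1) else ρ x) (fun x => ?_) h1,
    fun y hy y' hy' hne => ?_, fun x hx => sz_pos.2 ⟨x, r3 x (hTI hx)⟩, ?_, fun z hz => ?_⟩
  · by_cases h : r x = d
    · by_cases hx : x ∈ I
      · exact Or.inl (r3 x hx)
      · have hgI := (hg x h).1
        refine Or.inr ?_
        simp only [if_pos h, if_pos (hId _ hgI), if_pos hgI, if_neg hx]
        exact ⟨(hg x h).2.2, Nat.zero_lt_one, by rw [r3 _ hgI, r1 x h]⟩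
    · rcases hf x with e | ⟨e1, e2, e3⟩
      · exact Or.inl (by rw [r2 x h, e])
      · have h' : r (p x) ≠ d := by rw [e3]; exact h
        refine Or.inr ?_
        simp only [if_neg h, if_neg h']
        exact ⟨e1, e2, by rw [r2 _ h', r2 _ h, e3]⟩
  · obtain ⟨x, rfl⟩ := sz_pos.1 (mem_supp.1 (mem_coe.1 hy))
    obtain ⟨x', rfl⟩ := sz_pos.1 (mem_supp.1 (mem_coe.1 hy'))
    by_cases e : r x = r x'
    · by_cases h : r x = d
      · have h' : r x' = d := e ▸ h
        rw [r1 x h, r1 x' h'] at hne ⊢
        exact hIc (hg x h).1 (hg x' h').1 hne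
      · exact absurd (by rw [r2 x h, r2 x' (e ▸ h), e]) hne
    · exact hadj _ _ (by rw [r4, r4]; exact e)
  · unfold sz
    rw [sum_card_fiberwise_eq_card_filter]
    refine card_le_card fun x hx => mem_filter.2 ⟨mem_univ _, ?_⟩
    rw [← r4 x]; exact hTd _ (mem_filter.1 hx).2
  · unfold sz
    congr 1
    ext x
    simp only [mem_filter, mem_univ, true_and]
    by_cases h : r x = d
    · constructor
      · intro e; exact absurd (by rw [← e, r4, h]) hz
      · intro e; exact absurd (by rw [← e, h, hd]) hz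
    · rw [r2 x h]

end Pool.Agent.KzFace
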