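import Pool.Agent.MP_913d4e_co.kz.Basic

/-! Complete multipartite graphs: which part sizes can have a vanishing coordinate. -/

set_option linter.unusedSectionVars false

namespace Pool.Agent.KzFace
open Finset

variable {V : Type} [Fintype V] [DecidableEq V]

/-- balanced part sizes -/
def Bal (w : V → ℕ) : Prop := ∀ x y, 0 < w y → w x ≤ w y + 1

/-- balanced with at least two parts, or of the form `(3, …, 3, 1)` with at least three parts -/
def Al (w : V → ℕ) : Prop :=
  (2 ≤ #(supp w) ∧ Bal w) ∨ (3 ≤ #(supp w) ∧ ∃ z, w z = 1 ∧ ∀ x, x ≠ z → w x = 0 ∨ w x = 3)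

lemma shift_mix (c : ℕ → ℝ) (w : V → ℕ) {x y : V} (hy : 0 < w y) (hx : w y + 2 ≤ w x) :
    ∃ a b : ℝ, 0 < a ∧ 0 < b ∧ (a + b) * phi ⊤ c w
      = a * phi ⊤ c (put w x y (w x - 1) (w y + 1)) + b * phi ⊤ c (mv w x y) := by
  have h : x ≠ y := fun e => by rw [e] at hx; omega
  have := top_mix c w h (s := w x - 1) (t := w y + 1) (by omega)
  have h1 : ((w x - 1 : ℕ) : ℝ) = w x - 1 := by rw [Nat.cast_sub (by omega)]; simp
  have h2 : (w y : ℝ) + 2 ≤ w x := by exact_mod_cast hx
  have h3 : (0 : ℝ) < w y := by exact_mod_cast hy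
  refine ⟨(w x : ℝ) * w y, ((w x - 1 : ℕ) : ℝ) * ((w y + 1 : ℕ) : ℝ) - (w x : ℝ) * w y,
    by nlinarith, by rw [h1]; push_cast; nlinarith, ?_⟩
  rw [← this]; ring

lemma top_nonneg {n : ℕ} {c : ℕ → ℝ}
    (H : ∀ w : V → ℕ, ∑ x, w x = n → Bal w → 0 ≤ phi ⊤ c w) :
    ∀ w : V → ℕ, ∑ x, w x = n → 0 ≤ phi ⊤ c w := by
  intro w
  induction hm : #(supp w) using Nat.strong_induction_on generalizing w with
  | _ m ih =>
    induction hs : ∑ x, w x ^ 2 using Nat.strong_induction_on generalizing w with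
    | _ s ih2 =>
      intro hw
      by_cases hb : Bal w
      · exact H w hw hb
      unfold Bal at hb
      push Not at hb
      obtain ⟨x, y, hy, hx⟩ := hb
      have h : x ≠ y := fun e => by rw [e] at hx; omega
      obtain ⟨a, b, ha, hb, e⟩ := shift_mix c w hy (show w y + 2 ≤ w x by omega)
      have e1 := card_supp_mv w h (by omega) hy
      have p2 := ih _ (by omega) (mv w x y) rfl (by rw [sum_mv w h, hw])
      have e2 := sum_put w h (w x - 1) (w y + 1) fun _ a => a ^ 2
      have p1 := ih2 _ (by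
        obtain ⟨d, hd⟩ : ∃ d, w x = w y + 2 + d := ⟨w x - (w y + 2), by omega⟩
        have : w x - 1 = w y + 1 + d := by omega
        rw [this, hd] at e2
        rw [this, ← hs]
        nlinarith) (put w x y (w x - 1) (w y + 1))
        (by rw [supp_put w h (by omega) hy (by omega) (by omega), hm]) rfl
        (by rw [sum_put' w h (by omega), hw])
      by_contra hneg
      push Not at hneg
      nlinarith [mul_nonneg ha.le p1, mul_nonneg hb.le p2, mul_pos (add_pos ha hb) (neg_pos.2 hneg)]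

lemma split_zero {a b x y z : ℝ} (ha : 0 < a) (hb : 0 < b) (hx : 0 ≤ x) (hy : 0 ≤ y)
    (e : (a + b) * z = a * x + b * y) (hz : z = 0) : x = 0 ∧ y = 0 := by
  rw [hz, mul_zero] at e
  have h1 := mul_nonneg ha.le hx
  have h2 := mul_nonneg hb.le hy
  exact ⟨(mul_eq_zero.1 (show a * x = 0 by linarith)).resolve_left ha.ne',
    (mul_eq_zero.1 (show b * y = 0 by linarith)).resolve_left hb.ne'⟩

lemma shift_zero {n : ℕ} {c : ℕ → ℝ} (hpos : ∀ w : V → ℕ, ∑ x, w x = n → 0 ≤ phi ⊤ c w)
    {w : V → ℕ} (hw : ∑ x, w x = n) {x y : V} (hy : 0 < w y) (hx : w y + 2 ≤ w x)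
    (h0 : phi ⊤ c w = 0) :
    phi ⊤ c (put w x y (w x - 1) (w y + 1)) = 0 ∧ phi ⊤ c (mv w x y) = 0 := by
  have h : x ≠ y := fun e => by rw [e] at hx; omega
  obtain ⟨a, b, ha, hb, e⟩ := shift_mix c w hy hx
  exact split_zero ha hb (hpos _ (by rw [sum_put' w h (by omega), hw]))
    (hpos _ (by rw [sum_mv w h, hw])) e h0

lemma Al.bal {w : V → ℕ} (h : Al w) {x : V} (h1 : w x = 2 ∨ 4 ≤ w x) : 2 ≤ #(supp w) ∧ Bal w := by
  rcases h with h | ⟨-, z, hz, h⟩
  · exact h
  by_cases e : x = z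
  · rw [e] at h1; omega
  · have := h x e; omega

/-- a vanishing coordinate forces one of the two shapes -/
lemma top_zero {n k : ℕ} {c : ℕ → ℝ} (hk : 1 ≤ k) (hc0 : ∀ e, e < k → c e = 0) (hck : 0 < c k)
    (hpos : ∀ w : V → ℕ, ∑ x, w x = n → 0 ≤ phi ⊤ c w) :
    ∀ w : V → ℕ, ∑ x, w x = n → phi ⊤ c w = 0 → k ≤ #(supp w) → Al w := by
  intro w
  induction hm : #(supp w) using Nat.strong_induction_on generalizing w with
  | _ m ih =>
    intro hw h0 hkm
    obtain ⟨T, -, hTs, hT⟩ := bigger hc0 hck h0 (T := supp w)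
      (fun a _ b _ hab => hab) subset_rfl (by omega)
    have hm2 : k + 1 ≤ m := by rw [← hm]; exact hT.trans (card_le_card hTs)
    by_cases hb : Bal w
    · exact Or.inl ⟨by omega, hb⟩
    unfold Bal at hb
    push Not at hb
    obtain ⟨x₀, y, hy, hx₀⟩ := hb
    obtain ⟨x, -, hmax⟩ := exists_max_image univ w ⟨y, mem_univ y⟩
    have hx : w y + 2 ≤ w x := by have := hmax x₀ (mem_univ _); omega
    have h : x ≠ y := fun e => by rw [e] at hx; omega
    obtain ⟨z1, z2⟩ := shift_zero hpos hw hy hx h0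
    have e1 := card_supp_mv w h (by omega) hy
    obtain ⟨s2, b2⟩ := (ih _ (by omega) (mv w x y) rfl (by rw [sum_mv w h, hw]) z2
      (by omega)).bal (x := x) (by rw [mv_u w h]; omega)
    have hoth : ∀ z, z ≠ x → z ≠ y → 0 < w z → w y = 1 ∧ w z = w x := by
      intro z hzx hzy hz
      have h1 := b2 x z (by rw [mv_ne w hzx hzy]; exact hz)
      rw [mv_u w h, mv_ne w hzx hzy] at h1
      have := hmax z (mem_univ _)
      omega
    obtain ⟨z, hz, hzx⟩ := exists_mem_ne (by omega : 1 < #(supp (mv w x y))) x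
    rw [supp_mv w h (by omega), mem_erase, mem_supp] at hz
    obtain ⟨hy1, hzw⟩ := hoth z hzx hz.1 hz.2
    by_cases h3 : w x = 3
    · refine Or.inr ⟨by omega, y, hy1, fun u hu => ?_⟩
      by_cases hux : u = x
      · rw [hux]; exact Or.inr h3
      rcases Nat.eq_zero_or_pos (w u) with h4 | h4
      · exact Or.inl h4
      · rw [(hoth u hux hu h4).2]; exact Or.inr h3
    exfalso
    set w1 := put w x y (w x - 1) (w y + 1) with hw1
    have a1 : w1 x = w x - 1 := put_u w h _ _
    have a2 : w1 y = w y + 1 := put_v w x y _ _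
    have a3 : w1 z = w z := put_ne w hzx hz.1 _ _
    have s1 : ∑ u, w1 u = n := by rw [hw1, sum_put' w h (by omega), hw]
    have s3 : supp w1 = supp w := supp_put w h (by omega) hy (by omega) (by omega)
    obtain ⟨-, z3⟩ := shift_zero hpos s1 (x := z) (y := y) (by omega) (by omega) z1
    have e3 := card_supp_mv w1 hz.1 (by omega) (by omega)
    rw [s3] at e3
    obtain ⟨-, b3⟩ := (ih _ (by omega) (mv w1 z y) rfl (by rw [sum_mv w1 hz.1, s1]) z3
      (by omega)).bal (x := z) (by rw [mv_u w1 hz.1]; omega)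
    have h1 := b3 z x (by rw [mv_ne w1 hzx.symm h]; omega)
    rw [mv_u w1 hz.1, mv_ne w1 hzx.symm h] at h1
    omega

/-- conversely, on the two shapes the first coordinate vanishes -/
lemma al_zero {n : ℕ} {c : ℕ → ℝ}
    (H : ∀ w : V → ℕ, ∑ x, w x = n → Bal w → 2 ≤ #(supp w) → phi ⊤ c w = 0)
    {w : V → ℕ} (hw : ∑ x, w x = n) (h : Al w) : phi ⊤ c w = 0 := by
  rcases h with ⟨h1, h2⟩ | ⟨h1, z, hz, h⟩
  · exact H w hw h2 h1
  obtain ⟨x, hx, hxz⟩ := exists_mem_ne (by omega : 1 < #(supp w)) z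
  rw [mem_supp] at hx
  have hx3 : w x = 3 := by have := h x hxz; omega
  have e := top_mix c w hxz (s := 2) (t := 2) (by omega)
  have e1 := card_supp_mv w hxz hx (by omega)
  have v1 : ∀ u, put w x z 2 2 u = 0 ∨ put w x z 2 2 u = 2 ∨ put w x z 2 2 u = 3 := by
    intro u
    by_cases h1 : u = z
    · rw [h1, put_v]; omega
    by_cases h2 : u = x
    · rw [h2, put_u w hxz]; omega
    rw [put_ne w h2 h1]; have := h u h1; omega
  have v2 : ∀ u, mv w x z u = 0 ∨ mv w x z u = 3 ∨ mv w x z u = 4 := by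
    intro u
    by_cases h1 : u = z
    · rw [h1, mv_v]; omega
    by_cases h2 : u = x
    · rw [h2, mv_u w hxz]; omega
    rw [mv_ne w h2 h1]; have := h u h1; omega
  rw [H (put w x z 2 2) (by rw [sum_put' w hxz (by omega), hw])
      (fun a b hb => by have := v1 a; have := v1 b; omega)
      (by rw [supp_put w hxz hx (by omega) (by omega) (by omega)]; omega),
    H (mv w x z) (by rw [sum_mv w hxz, hw])
      (fun a b hb => by have := v2 a; have := v2 b; omega) (by omega)] at e
  push_cast at e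
  linarith

end Pool.Agent.KzFace
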