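import Pool.Agent.MP_913d4e_co.kz.Class

/-! Clique counts, Turán graphs and the coordinate functionals. -/

set_option linter.unusedSectionVars false

namespace Pool.Agent.KzFace
open Finset SimpleGraph

variable {V : Type} [Fintype V] [DecidableEq V]

lemma phi_one (G : SimpleGraph V) (c : ℕ → ℝ) : phi G c (fun _ => 1)
    = ∑ e ∈ range (Fintype.card V + 1), c e * ((G.cliqueSet e).ncard : ℝ) := by
  classical
  unfold phi TurSp.form
  rw [← sum_fiberwise_of_maps_to (g := card) (t := range (Fintype.card V + 1))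
    fun T _ => mem_range.2 (Nat.lt_succ_of_le (card_le_univ T))]
  refine sum_congr rfl fun e _ => ?_
  have : G.cliqueSet e = ↑(univ.filter fun T : Finset V => #T = e ∧ G.IsClique (T : Set V)) := by
    ext T; simp [isNClique_iff, and_comm]
  rw [this, Set.ncard_coe_finset, ← filter_filter, card_filter, Nat.cast_sum, mul_sum]
  refine sum_congr rfl fun T hT => ?_
  simp only [(mem_filter.1 hT).2]
  split_ifs <;> simp

lemma phi_iso {G H : SimpleGraph V} (σ : G ≃g H) (c : ℕ → ℝ) (w : V → ℕ) :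
    phi G c (fun x => w (σ x)) = phi H c w := by
  classical
  unfold phi TurSp.form
  refine Fintype.sum_equiv σ.toEquiv.finsetCongr _ _ fun T => ?_
  have h : H.IsClique ((T.map σ.toEquiv.toEmbedding : Finset V) : Set V) ↔
      G.IsClique (T : Set V) := by
    rw [coe_map]
    constructor
    · intro h x hx y hy hne
      exact σ.map_rel_iff.1 (h ⟨x, hx, rfl⟩ ⟨y, hy, rfl⟩ fun e => hne (σ.injective e))
    · rintro h _ ⟨x, hx, rfl⟩ _ ⟨y, hy, rfl⟩ hne
      exact σ.map_rel_iff.2 (h hx hy fun e => hne (by rw [e]))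
  simp only [Equiv.finsetCongr_apply, h, card_map, prod_map]
  rfl

lemma phi_cm {G : SimpleGraph V} {r : V → V} (h : ∀ x y, G.Adj x y ↔ r x ≠ r y)
    (hrr : ∀ x, r (r x) = r x) (c : ℕ → ℝ) : phi G c (fun _ => 1) = phi ⊤ c (sz r) := by
  rw [← phi_eq_top (G := G) c]
  · refine (flow (fun u v => r u = r v) (fun w => phi G c w = phi G c fun _ => 1)
      (fun w u v hne hR _ hw => ?_) r r (fun x => if r x = x then 0 else 1) (fun x => ?_) rfl).symm
    · rw [phi_twin G c w hne (by rw [h]; simpa using hR) fun x _ _ => by rw [h, h, hR], hw]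
    · by_cases e : r x = x
      · exact Or.inl e
      · exact Or.inr ⟨hrr x, by simp [e, hrr], hrr x⟩
  · intro y hy y' hy' hne
    obtain ⟨x, rfl⟩ := sz_pos.1 (mem_supp.1 (mem_coe.1 hy))
    obtain ⟨x', rfl⟩ := sz_pos.1 (mem_supp.1 (mem_coe.1 hy'))
    exact (h _ _).2 (by rw [hrr, hrr]; exact hne)

lemma bal_shape {w : V → ℕ} (hb : Bal w) (h1 : 1 ≤ #(supp w)) : ∃ m b, b < #(supp w) ∧
    ∑ x, w x = #(supp w) * m + b ∧ ∀ v, #{x | w x = v} = if v = 0 then Fintype.card V - #(supp w)
      else if v = m then #(supp w) - b else if v = m + 1 then b else 0 := by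
  obtain ⟨y, hy, hmin⟩ := exists_min_image (supp w) w (card_pos.1 h1)
  rw [mem_supp] at hy
  have val : ∀ x, w x = 0 ∨ w x = w y ∨ w x = w y + 1 := by
    intro x
    have := hb x y hy
    rcases Nat.eq_zero_or_pos (w x) with h | h
    · exact Or.inl h
    · have := hmin x (mem_supp.2 h); omega
  have hu : supp w = (univ.filter fun x => w x = w y) ∪ univ.filter fun x => w x = w y + 1 := by
    ext x
    simp only [mem_supp, mem_union, mem_filter, mem_univ, true_and]
    have := val x; omega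
  have hdis : Disjoint (univ.filter fun x => w x = w y) (univ.filter fun x => w x = w y + 1) :=
    disjoint_filter.2 fun x _ h h' => by omega
  have hc := congrArg card hu
  rw [card_union_of_disjoint hdis] at hc
  have ha : 0 < #{x | w x = w y} := card_pos.2 ⟨y, by simp⟩
  refine ⟨w y, #{x | w x = w y + 1}, by omega, ?_, fun v => ?_⟩
  · have e : ∑ x, w x = ∑ x ∈ supp w, w x :=
      (sum_subset (subset_univ _) fun x _ hx => by rw [mem_supp] at hx; omega).symm
    rw [e, hc, hu, sum_union hdis, sum_congr rfl fun x hx => (mem_filter.1 hx).2,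
      sum_congr (s₁ := univ.filter fun x => w x = w y + 1) rfl fun x hx => (mem_filter.1 hx).2]
    simp only [sum_const, smul_eq_mul]
    ring
  · split_ifs with h0 h2 h3
    · have : (univ.filter fun x => w x = v) = (supp w)ᶜ := by
        ext x; simp [mem_supp, h0]
      rw [this, card_compl]
    · rw [h2]; omega
    · rw [h3]
    · rw [card_eq_zero, filter_eq_empty_iff]
      intro x _ hx
      have := val x; omega

lemma bal_perm {w t : V → ℕ} (hw : Bal w) (ht : Bal t) (h1 : 1 ≤ #(supp w))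
    (hs : #(supp w) = #(supp t)) (hn : ∑ x, w x = ∑ x, t x) :
    ∃ σ : V ≃ V, ∀ x, t (σ x) = w x := by
  obtain ⟨m, b, h2, h3, h4⟩ := bal_shape hw h1
  obtain ⟨m', b', h2', h3', h4'⟩ := bal_shape ht (hs ▸ h1)
  rw [← hs] at h2' h3' h4'
  have e : #(supp w) * m + b = #(supp w) * m' + b' := by rw [← h3, ← h3', hn]
  have eb : b = b' := by
    have := congrArg (· % #(supp w)) e
    simpa [Nat.mul_add_mod, Nat.mod_eq_of_lt h2, Nat.mod_eq_of_lt h2'] using this
  have em : m = m' := Nat.eq_of_mul_eq_mul_left h1 (by omega)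
  exact ⟨Equiv.ofFiberEquiv (f := w) (g := t) fun v => Fintype.equivOfCardEq (by
    rw [Fintype.card_subtype, Fintype.card_subtype, h4, h4', eb, em]),
    fun x => Equiv.ofFiberEquiv_map _ x⟩

/-- the residue map whose fibres are the parts of the Turán graph -/
def tr (n k : ℕ) (x : Fin n) : Fin n := ⟨x % k, lt_of_le_of_lt (Nat.mod_le _ _) x.2⟩

lemma tr_adj (n k : ℕ) (x y : Fin n) : (turanGraph n k).Adj x y ↔ tr n k x ≠ tr n k y := by
  simp [turanGraph, tr]

lemma tr_tr (n k : ℕ) (x : Fin n) : tr n k (tr n k x) = tr n k x := by simp [tr]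

lemma supp_tr {n k : ℕ} (hk : 1 ≤ k) :
    supp (sz (tr n k)) = univ.filter fun i : Fin n => (i : ℕ) < k := by
  ext i
  simp only [mem_supp, sz_pos, mem_filter, mem_univ, true_and]
  constructor
  · rintro ⟨x, rfl⟩; exact Nat.mod_lt _ hk
  · intro h; exact ⟨i, Fin.ext (Nat.mod_eq_of_lt h)⟩

lemma card_supp_tr {n k : ℕ} (hk : 1 ≤ k) (hn : k ≤ n) : #(supp (sz (tr n k))) = k := by
  rw [supp_tr hk, Fin.card_filter_val_lt, min_eq_right hn]

lemma bal_tr {n k : ℕ} (hk : 1 ≤ k) : Bal (sz (tr n k)) := by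
  have key : ∀ i : Fin n, 0 < sz (tr n k) i → n / k ≤ sz (tr n k) i ∧ sz (tr n k) i ≤ n / k + 1 := by
    intro i hi
    have hik : (i : ℕ) < k := by
      have := mem_supp.2 hi
      rw [supp_tr hk] at this
      exact (mem_filter.1 this).2
    have e : sz (tr n k) i = Nat.count (· ≡ (i : ℕ) [MOD k]) n := by
      rw [Nat.count_eq_card_filter_range, sz, card_filter, card_filter,
        ← Fin.sum_univ_eq_sum_range (fun x => if x ≡ (i : ℕ) [MOD k] then 1 else 0)]
      refine sum_congr rfl fun x _ => if_congr ?_ rfl rfl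
      rw [Nat.ModEq, Nat.mod_eq_of_lt hik, Fin.ext_iff]; rfl
    rw [e, Nat.count_modEq_card n hk]
    split_ifs <;> omega
  intro x y hy
  have := key y hy
  rcases Nat.eq_zero_or_pos (sz (tr n k) x) with h | h
  · omega
  · have := key x h; omega

lemma sum_sz_fin {n : ℕ} (r : Fin n → Fin n) : ∑ y, sz r y = n := by
  rw [sum_sz, Fintype.card_fin]

lemma phi_bal {n : ℕ} (hn : 1 ≤ n) (c : ℕ → ℝ) {w : Fin n → ℕ} (hw : ∑ x, w x = n) (hb : Bal w) :
    1 ≤ #(supp w) ∧ #(supp w) ≤ n ∧ phi ⊤ c w = phi (turanGraph n #(supp w)) c fun _ => 1 := by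
  have h1 : 1 ≤ #(supp w) := by
    by_contra h
    have h0 : supp w = ∅ := card_eq_zero.1 (by omega)
    have : ∑ x, w x = 0 := sum_eq_zero fun x _ => by
      by_contra hx
      have : x ∈ supp w := mem_supp.2 (by omega)
      simp [h0] at this
    omega
  have h2 : #(supp w) ≤ n := (card_le_univ _).trans (Fintype.card_fin n).le
  refine ⟨h1, h2, ?_⟩
  obtain ⟨σ, hσ⟩ := bal_perm hb (bal_tr h1) h1 (card_supp_tr h1 h2).symm (by rw [hw, sum_sz_fin])
  rw [phi_cm (tr_adj n _) (tr_tr n _), ← phi_iso (Iso.completeGraph σ) c (sz _)]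
  congr 1
  funext x
  exact (hσ x).symm

lemma iso_turan {n : ℕ} {G : SimpleGraph (Fin n)} {r : Fin n → Fin n}
    (h : ∀ x y, G.Adj x y ↔ r x ≠ r y) (h1 : 1 ≤ #(supp (sz r))) (hb : Bal (sz r)) :
    Nonempty (G ≃g turanGraph n #(supp (sz r))) := by
  have h2 : #(supp (sz r)) ≤ n := (card_le_univ _).trans (Fintype.card_fin n).le
  obtain ⟨σ, hσ⟩ := bal_perm hb (bal_tr h1) h1 (card_supp_tr h1 h2).symm
    (by rw [sum_sz_fin, sum_sz_fin])
  have hc : ∀ i, Fintype.card {a // σ (r a) = i}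
      = Fintype.card {b // tr n #(supp (sz r)) b = i} := by
    intro i
    obtain ⟨j, rfl⟩ := σ.surjective i
    rw [Fintype.card_subtype, Fintype.card_subtype]
    simp only [σ.apply_eq_iff_eq]
    exact (hσ j).symm
  obtain ⟨τ, hτ⟩ : ∃ τ : Fin n ≃ Fin n, ∀ a, tr n #(supp (sz r)) (τ a) = σ (r a) :=
    ⟨Equiv.ofFiberEquiv (f := fun a => σ (r a)) (g := tr n #(supp (sz r)))
      fun i => Fintype.equivOfCardEq (hc i), fun a => Equiv.ofFiberEquiv_map _ a⟩
  refine ⟨⟨τ, ?_⟩⟩
  intro a b
  rw [tr_adj, hτ, hτ, h, σ.injective.ne_iff]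

lemma cnt_zero {n j e : ℕ} (hj : 1 ≤ j) (h : j < e) : ((turanGraph n j).cliqueSet e).ncard = 0 := by
  rw [cliqueSet_eq_empty_iff.2 ((turanGraph_cliqueFree hj).mono h), Set.ncard_empty]

lemma cnt_pos {n j : ℕ} (hj : 1 ≤ j) (h : j ≤ n) : 0 < ((turanGraph n j).cliqueSet j).ncard := by
  refine (Set.ncard_pos (Set.toFinite _)).2 ⟨supp (sz (tr n j)), ?_, card_supp_tr hj h⟩
  intro y hy y' hy' hne
  obtain ⟨x, rfl⟩ := sz_pos.1 (mem_supp.1 (mem_coe.1 hy))
  obtain ⟨x', rfl⟩ := sz_pos.1 (mem_supp.1 (mem_coe.1 hy'))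
  exact (tr_adj _ _ _ _).2 (by rw [tr_tr, tr_tr]; exact hne)

/-- the `k`-th coordinate functional of the simplex of Turán graphs -/
lemma dual {n k : ℕ} (hk : 1 ≤ k) (hn : k ≤ n) : ∃ c : ℕ → ℝ, (∀ e, e < k → c e = 0) ∧ 0 < c k ∧
    ∀ j, 1 ≤ j → j ≤ n → ∑ e ∈ range (n + 1), c e * (((turanGraph n j).cliqueSet e).ncard : ℝ)
      = if j = k then 1 else 0 := by
  have key : ∀ m, k ≤ m → m ≤ n → ∃ c : ℕ → ℝ, (∀ e, e < k → c e = 0) ∧ 0 < c k ∧
      ∀ j, 1 ≤ j → j ≤ m → ∑ e ∈ range (n + 1), c e * (((turanGraph n j).cliqueSet e).ncard : ℝ)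
        = if j = k then 1 else 0 := by
    intro m hm
    induction m, hm using Nat.le_induction with
    | base =>
      intro _
      have hp : (0 : ℝ) < ((turanGraph n k).cliqueSet k).ncard := by exact_mod_cast cnt_pos hk hn
      refine ⟨fun e => if e = k then (((turanGraph n k).cliqueSet k).ncard : ℝ)⁻¹ else 0,
        fun e he => if_neg he.ne, by simpa using cnt_pos hk hn, fun j h1 h2 => ?_⟩
      rw [sum_eq_single k (fun e _ he => by simp [he]) fun h => absurd (mem_range.2 (by omega)) h]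
      simp only [if_true]
      split_ifs with h
      · rw [h]; exact inv_mul_cancel₀ hp.ne'
      · rw [cnt_zero h1 (by omega)]; simp
    | succ m hm ih =>
      intro hmn
      obtain ⟨c, c0, c1, c2⟩ := ih (by omega)
      have hp : (0 : ℝ) < ((turanGraph n (m + 1)).cliqueSet (m + 1)).ncard := by
        exact_mod_cast cnt_pos (by omega) hmn
      set a := (∑ e ∈ range (n + 1), c e * (((turanGraph n (m + 1)).cliqueSet e).ncard : ℝ))
        / ((turanGraph n (m + 1)).cliqueSet (m + 1)).ncard with ha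
      refine ⟨fun e => c e - if e = m + 1 then a else 0, fun e he => ?_, ?_, fun j h1 h2 => ?_⟩
      · simp only [c0 e he, if_neg (show ¬ e = m + 1 by omega), sub_zero]
      · simp only [if_neg (show ¬ k = m + 1 by omega), sub_zero]; exact c1
      · simp only [sub_mul, sum_sub_distrib]
        rw [sum_eq_single (f := fun e => (if e = m + 1 then a else 0)
            * (((turanGraph n j).cliqueSet e).ncard : ℝ)) (m + 1) (fun e _ he => by simp [he])
          fun h => absurd (mem_range.2 (by omega)) h]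
        simp only [if_true]
        by_cases h : j = m + 1
        · rw [h, if_neg (by omega), ha, div_mul_cancel₀ _ hp.ne', sub_self]
        · rw [c2 j h1 (by omega), cnt_zero h1 (by omega)]; simp
  exact key n hn le_rfl

end Pool.Agent.KzFace
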